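import Pool.Agent.R352.Q.Zk

/-!
# Algebraic independence of the incomplete zeta values
-/

set_option autoImplicit false

open MeasureTheory Set

namespace Pool.Agent.R352.Q

open Pool.Agent.R352.E

open PowerSeries in
lemma mem_of_Zk {x : ℚ} (hx : 0 < x) {T : Set ℝ} (he : Real.exp 1 ∈ clF T) (h1 : EE 1 x ∈ clF T) {J : ℕ} (hJ : 1 ≤ J)
    (hZ : ∀ k, 2 ≤ k → k ≤ J → Zk k x ∈ clF T) : ∀ l ≤ J, EE l x ∈ clF T := by
  have hx' : (0 : ℝ) < x := by exact_mod_cast hx
  have ha : 1 - Real.exp (-(x : ℝ)) ∈ clF T := by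
    refine (clF T).sub_mem (clF T).one_mem ?_
    have := exp_rat_mem he (-x)
    push_cast at this
    exact this
  have ha0 := (const_pos hx').ne'
  have hneg : ∀ n : ℕ, (-1 : ℝ) ^ n ∈ clF T := fun n => (clF T).pow_mem ((clF T).neg_mem (clF T).one_mem) n
  have hA0 : coeff 0 (As x) = 1 - Real.exp (-(x : ℝ)) := by rw [coeff_zero_eq_constantCoeff_apply, const_As]
  have hL : ∀ j, j + 1 ≤ J → coeff j (Ls x) ∈ clF T := by
    intro j hj
    cases j with
    | zero =>
      have h2 := congrArg (coeff 0) (deriv_As hx')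
      have h3 : coeff 0 (As (x : ℝ) * Ls x) = coeff 0 (As (x : ℝ)) * coeff 0 (Ls (x : ℝ)) := by
        simp only [coeff_zero_eq_constantCoeff_apply, map_mul]
      rw [coeff_derivative, h3, hA0, As, coeff_mk] at h2
      have h4 : coeff 0 (Ls (x : ℝ)) = -EE 1 x / (1 - Real.exp (-(x : ℝ))) := by
        rw [eq_div_iff ha0, mul_comm, ← h2]
        norm_num
      rw [h4]
      exact (clF T).div_mem ((clF T).neg_mem h1) ha
    | succ j =>
      have h2 := hZ (j + 2) (by omega) (by omega)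
      rw [Zk] at h2
      have h3 : j + 2 - 1 = j + 1 := by omega
      rw [h3] at h2
      have h4 : coeff (j + 1) (Ls x) = ((-1) ^ (j + 2) * ((1 - Real.exp (-(x : ℝ))) ^ (j + 2) * coeff (j + 1) (Ls x))) /
          ((-1) ^ (j + 2) * (1 - Real.exp (-(x : ℝ))) ^ (j + 2)) := by
        have : ((-1 : ℝ)) ^ (j + 2) ≠ 0 := pow_ne_zero _ (by norm_num)
        field_simp
      rw [h4]
      exact (clF T).div_mem h2 ((clF T).mul_mem (hneg _) ((clF T).pow_mem ha _))
  have hA : ∀ l ≤ J, coeff l (As x) ∈ clF T := by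
    intro l
    induction l using Nat.strong_induction_on with
    | _ l ih =>
      intro hl
      cases l with
      | zero => rw [hA0]; exact ha
      | succ n =>
        have h2 := congrArg (coeff n) (deriv_As hx')
        rw [coeff_derivative, coeff_mul] at h2
        have h3 : coeff (n + 1) (As x) = (∑ p ∈ Finset.HasAntidiagonal.antidiagonal n, coeff p.1 (As x) *
            coeff p.2 (Ls x)) / ((n : ℝ) + 1) := by
          rw [eq_div_iff (by positivity), h2]
        rw [h3]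
        refine (clF T).div_mem ((clF T).sum_mem fun p hp => ?_) ?_
        · have hp' := Finset.HasAntidiagonal.mem_antidiagonal.1 hp
          exact (clF T).mul_mem (ih p.1 (by omega) (by omega)) (hL p.2 (by omega))
        · exact_mod_cast natCast_mem (clF T) (n + 1)
  intro l hl
  have h2 := hA l hl
  rw [As, coeff_mk] at h2
  have h3 : EE l x = (-1) ^ l * ((-1) ^ l * EE l x) := by
    rw [← mul_assoc, ← mul_pow]; norm_num
  rw [h3]
  exact (clF T).mul_mem (hneg l) h2

/-- the spanning family -/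
noncomputable def W (l : ℕ) (x : ℝ) : ℝ := if l = 0 then EE 1 x else Zk (l + 1) x

lemma AI_fin (J : ℕ) {ι : Type*} [Fintype ι] (x : ι → ℚ) (hinj : Function.Injective x) (hpos : ∀ i, 0 < x i) :
    AlgebraicIndependent ℚ (fun o : Option (Fin J × ι) => o.elim (Real.exp 1) (fun p => W p.1 (x p.2))) := by
  refine indep_of_span (EE_alg_Q J x hinj hpos) (fun o => ?_) le_rfl
  have he : Real.exp 1 ∈ clF (range fun o : Option (Fin J × ι) => o.elim (Real.exp 1) (fun p => W p.1 (x p.2))) :=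
    subset_clF _ ⟨none, rfl⟩
  cases o with
  | none => exact he
  | some p =>
    have hJ := p.1.2
    refine mem_of_Zk (hpos p.2) he ?_ (J := J) (by omega) (fun k hk hk' => ?_) (p.1 + 1) (by omega)
    · refine subset_clF _ ⟨some (⟨0, by omega⟩, p.2), ?_⟩
      simp [W]
    · refine subset_clF _ ⟨some (⟨k - 1, by omega⟩, p.2), ?_⟩
      simp only [Option.elim, W]
      rw [if_neg (by omega), Nat.sub_add_cancel (by omega)]

/-- **Algebraic independence** of `e` and the incomplete zeta values -/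
theorem AI_Z : AlgebraicIndependent ℚ (fun o : Option {p : ℕ × ℚ // 2 ≤ p.1 ∧ 0 < p.2} =>
    o.elim (Real.exp 1) (fun p => Zk p.1.1 p.1.2)) := by
  classical
  refine algebraicIndependent_of_finite_type fun t ht => ?_
  let s : Finset (ℕ × ℚ) := ht.toFinset.biUnion fun o => o.elim ∅ (fun p => {p.1})
  have hs : ∀ p : {p : ℕ × ℚ // 2 ≤ p.1 ∧ 0 < p.2}, some p ∈ t → p.1 ∈ s := by
    intro p hp
    refine Finset.mem_biUnion.2 ⟨some p, ht.mem_toFinset.2 hp, ?_⟩
    simp
  let J : ℕ := s.sup Prod.fst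
  let Y : Finset ℚ := (s.image Prod.snd).filter (fun x => 0 < x)
  have hJ : ∀ p : {p : ℕ × ℚ // 2 ≤ p.1 ∧ 0 < p.2}, some p ∈ t → p.1.1 ≤ J := fun p hp =>
    Finset.le_sup (f := Prod.fst) (hs p hp)
  have hY : ∀ p : {p : ℕ × ℚ // 2 ≤ p.1 ∧ 0 < p.2}, some p ∈ t → p.1.2 ∈ Y := fun p hp =>
    Finset.mem_filter.2 ⟨Finset.mem_image_of_mem _ (hs p hp), p.2.2⟩
  have h := AI_fin J (ι := Y) (fun x => (x : ℚ)) Subtype.val_injective (fun x => (Finset.mem_filter.1 x.2).2)
  let f : t → Option (Fin J × Y) := fun o =>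
    match o with
    | ⟨none, _⟩ => none
    | ⟨some p, hp⟩ => some (⟨p.1.1 - 1, by have := hJ p hp; have := p.2.1; omega⟩, ⟨p.1.2, hY p hp⟩)
  have hf : Function.Injective f := by
    rintro ⟨o, ho⟩ ⟨o', ho'⟩ hoo
    cases o with
    | none =>
      cases o' with
      | none => rfl
      | some p' => exact absurd hoo (by simp [f])
    | some p =>
      cases o' with
      | none => exact absurd hoo (by simp [f])
      | some p' =>
        simp only [f, Option.some.injEq, Prod.mk.injEq, Fin.mk.injEq, Subtype.mk.injEq] at hoo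
        have h1 := p.2.1
        have h2 := p'.2.1
        have : p = p' := Subtype.ext (Prod.ext (by omega) hoo.2)
        subst this
        rfl
  have h2 := h.comp f hf
  convert h2 using 1
  ext ⟨o, ho⟩
  cases o with
  | none => rfl
  | some p =>
    have h1 := p.2.1
    simp only [Option.elim, Function.comp_apply, f, W]
    rw [if_neg (by omega), Nat.sub_add_cancel (by omega)]

/-- the tails -/
noncomputable def Rk (k : ℕ) (x : ℝ) : ℝ := zt k - Zk k x

lemma Zk_mem {k : ℕ} {x : ℝ} {T : Set ℝ} (h1 : zt k ∈ clF T) (h2 : Rk k x ∈ clF T) : Zk k x ∈ clF T := by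
  have : Zk k x = zt k - Rk k x := by rw [Rk]; ring
  rw [this]
  exact (clF T).sub_mem h1 h2

lemma AI_sub (S : Finset (ℕ × ℚ)) (hS : ∀ p ∈ S, 2 ≤ p.1 ∧ 0 < p.2) :
    AlgebraicIndependent ℚ (fun o : Option S => o.elim (Real.exp 1) (fun p => Zk p.1.1 p.1.2)) := by
  let f : Option S → Option {p : ℕ × ℚ // 2 ≤ p.1 ∧ 0 < p.2} := Option.map fun p => ⟨p.1, hS p.1 p.2⟩
  have hf : Function.Injective f := by
    refine Option.map_injective ?_
    intro p p' h
    simp only [Subtype.mk.injEq] at h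
    exact Subtype.ext h
  have h2 := AI_Z.comp f hf
  convert h2 using 1
  ext o
  cases o <;> simp [f]

/-- a lower bound for the transcendence degree -/
theorem trdegR {r : ℕ} (y : Fin r → ℝ) (S : Finset (ℕ × ℚ))
    (hS : ∀ p ∈ S, 2 ≤ p.1 ∧ 0 < p.2 ∧ zt p.1 ∈ clF ({Real.exp 1} ∪ range y)) :
    ((S.card + 1 : ℕ) : Cardinal) ≤ Algebra.trdeg ℚ (IntermediateField.adjoin ℚ
      ({Real.exp 1} ∪ range y ∪ (fun p : ℕ × ℚ => Rk p.1 p.2) '' (S : Set (ℕ × ℚ)))) := by
  have h := AI_sub S (fun p hp => ⟨(hS p hp).1, (hS p hp).2.1⟩)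
  have h2 := trdeg_ge h (A := {Real.exp 1} ∪ range y ∪ (fun p : ℕ × ℚ => Rk p.1 p.2) '' (S : Set (ℕ × ℚ))) ?_
  · refine le_trans (le_of_eq ?_) h2
    simp
  · intro o
    have he : Real.exp 1 ∈ clF ({Real.exp 1} ∪ range y ∪ (fun p : ℕ × ℚ => Rk p.1 p.2) '' (S : Set (ℕ × ℚ))) :=
      subset_clF _ (Or.inl (Or.inl rfl))
    cases o with
    | none => exact he
    | some p =>
      exact Zk_mem (clF_mono subset_union_left (hS p.1 p.2).2.2) (subset_clF _ (Or.inr ⟨p.1, p.2, rfl⟩))

/-- counting -/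
theorem countR {r : ℕ} (y : Fin r → ℝ) (t : Finset (Fin r ⊕ (ℕ × ℚ)))
    (ht : ∀ i ∈ t, Sum.elim y (fun p => Rk p.1 p.2) i ∈ clF {Real.exp 1})
    (ht' : ∀ p : ℕ × ℚ, Sum.inr p ∈ t → 2 ≤ p.1 ∧ 0 < p.2 ∧ zt p.1 ∈ clF ({Real.exp 1} ∪ range y)) : t.card ≤ r := by
  classical
  let S : Finset (ℕ × ℚ) := t.biUnion fun i => Sum.elim (fun _ => ∅) (fun p => {p}) i
  have hSm : ∀ p : ℕ × ℚ, Sum.inr p ∈ t → p ∈ S := fun p hp => Finset.mem_biUnion.2 ⟨_, hp, by simp⟩
  have hSm' : ∀ p ∈ S, Sum.inr p ∈ t := by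
    intro p hp
    obtain ⟨i, hi, hxi⟩ := Finset.mem_biUnion.1 hp
    rcases i with i | q
    · simp at hxi
    · simp at hxi
      subst hxi
      exact hi
  have hAI := AI_sub S (fun p hp => ⟨(ht' p (hSm' p hp)).1, (ht' p (hSm' p hp)).2.1⟩)
  let emb : Fin r ⊕ S → Fin r ⊕ (ℕ × ℚ) := Sum.map id Subtype.val
  have hemb : Function.Injective emb := Function.Injective.sumMap Function.injective_id Subtype.val_injective
  let S' : Finset (Fin r ⊕ S) := t.preimage emb hemb.injOn
  have hS'card : S'.card = t.card := by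
    rw [Finset.card_preimage, Finset.filter_true_of_mem]
    intro i hi
    rcases i with i | p
    · exact ⟨Sum.inl i, rfl⟩
    · exact ⟨Sum.inr ⟨p, hSm p hi⟩, rfl⟩
  have key := count_gen hAI (y := fun k => Sum.elim y (fun p => Rk p.1 p.2) (emb k)) (a := Real.exp 1) S'
    (fun k hk => ht _ (Finset.mem_preimage.1 hk)) ?_
  · simp only [Fintype.card_option, Fintype.card_fin, Fintype.card_coe, Fintype.card_sum, hS'card] at key
    omega
  · intro o
    cases o with
    | none => exact subset_clF _ (Or.inl rfl)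
    | some p =>
      refine Zk_mem (clF_mono ?_ (ht' p.1 (hSm' p.1 p.2)).2.2) (subset_clF _ (Or.inr ⟨Sum.inr p, rfl⟩))
      refine union_subset_union_right _ ?_
      rintro _ ⟨i, rfl⟩
      exact ⟨Sum.inl i, rfl⟩

/-- if the zeta values are algebraic over `ℚ(e)`, the tails are algebraically independent -/
theorem AI_R (K : Set ℕ) (hK : ∀ k ∈ K, 2 ≤ k ∧ zt k ∈ clF {Real.exp 1}) :
    AlgebraicIndependent ℚ (fun o : Option {p : ℕ × ℚ // p.1 ∈ K ∧ 0 < p.2} =>
      o.elim (Real.exp 1) (fun p => Rk p.1.1 p.1.2)) := by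
  classical
  refine algebraicIndependent_of_finite_type fun t ht => ?_
  let F : Set (Option {p : ℕ × ℚ // p.1 ∈ K ∧ 0 < p.2}) := insert none t
  have hF : F.Finite := ht.insert _
  have := hF.fintype
  have key : AlgebraicIndependent ℚ (fun o : F => (o : Option {p : ℕ × ℚ // p.1 ∈ K ∧ 0 < p.2}).elim (Real.exp 1)
      (fun p => Rk p.1.1 p.1.2)) := by
    let f : F → Option {p : ℕ × ℚ // 2 ≤ p.1 ∧ 0 < p.2} := fun o =>
      (o : Option {p : ℕ × ℚ // p.1 ∈ K ∧ 0 < p.2}).map fun p => ⟨p.1, (hK _ p.2.1).1, p.2.2⟩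
    have hf : Function.Injective f := by
      intro o o' hoo
      refine Subtype.ext (Option.map_injective ?_ hoo)
      intro a b hab
      simp only [Subtype.mk.injEq] at hab
      exact Subtype.ext hab
    refine indep_of_span (AI_Z.comp f hf) (fun o => ?_) le_rfl
    have he : Real.exp 1 ∈ clF (range fun o : F => (o : Option {p : ℕ × ℚ // p.1 ∈ K ∧ 0 < p.2}).elim (Real.exp 1)
        (fun p => Rk p.1.1 p.1.2)) := subset_clF _ ⟨⟨none, Or.inl rfl⟩, rfl⟩
    obtain ⟨o, ho⟩ := o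
    cases o with
    | none => exact he
    | some p =>
      exact Zk_mem (clF_le (singleton_subset_iff.2 he) (hK _ p.2.1).2) (subset_clF _ ⟨⟨some p, ho⟩, rfl⟩)
  have h2 := key.comp (fun o : t => (⟨o.1, Or.inr o.2⟩ : F)) (by
    intro a b hab
    have := congrArg Subtype.val hab
    exact Subtype.ext this)
  exact h2

end Pool.Agent.R352.Q
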