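import Pool.Agent.R352.Q.Ser

/-!
# Integrals of powers of linear forms in logarithms over cubes
-/

set_option autoImplicit false

open MeasureTheory Set

namespace Pool.Agent.R352.Q

open Pool.Agent.R352.E

/-- the integrand -/
noncomputable def FI {n : ℕ} (m : ℕ) (c : Fin n → ℂ) (t : Fin n → ℝ) : ℂ :=
  (∑ j, c j * (Real.log (t j) : ℂ)) ^ m * ((Real.exp (-∑ j, t j) : ℝ) : ℂ)

lemma FI_eq {n : ℕ} (m : ℕ) (c : Fin n → ℂ) (t : Fin n → ℝ) :
    FI m c t = ∑ p ∈ Finset.piAntidiag Finset.univ m,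
      ((Nat.multinomial Finset.univ p : ℂ) * ∏ j, c j ^ p j) * ∏ j, fl (p j) (t j) := by
  rw [FI, Finset.sum_pow_eq_sum_piAntidiag, Finset.sum_mul]
  refine Finset.sum_congr rfl fun p _ => ?_
  rw [← Finset.sum_neg_distrib, Real.exp_sum]
  simp only [mul_pow, Finset.prod_mul_distrib, fl, fr]
  push_cast
  rw [Finset.prod_mul_distrib]
  ring

variable {s : Set ℝ}

lemma prod_integrable (hI : ∀ n, IntegrableOn (fl n) s) {n : ℕ} (p : Fin n → ℕ) :
    IntegrableOn (fun t : Fin n → ℝ => ∏ j, fl (p j) (t j)) (Set.univ.pi fun _ => s) := by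
  rw [IntegrableOn, volume_pi, Measure.restrict_pi_pi]
  exact Integrable.fintype_prod (fun j => hI (p j))

lemma prod_integral {n : ℕ} (p : Fin n → ℕ) :
    ∫ t in Set.univ.pi (fun _ : Fin n => s), ∏ j, fl (p j) (t j) = ∏ j, ∫ t in s, fl (p j) t := by
  rw [volume_pi, Measure.restrict_pi_pi]
  exact integral_fintype_prod_eq_prod (𝕜 := ℂ) (fun j => fl (p j))

lemma FI_integrable (hI : ∀ n, IntegrableOn (fl n) s) {n : ℕ} (m : ℕ) (c : Fin n → ℂ) :
    IntegrableOn (FI m c) (Set.univ.pi fun _ => s) := by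
  have h : FI m c = fun t => ∑ p ∈ Finset.piAntidiag Finset.univ m,
      ((Nat.multinomial Finset.univ p : ℂ) * ∏ j, c j ^ p j) * ∏ j, fl (p j) (t j) := funext (FI_eq m c)
  rw [h]
  exact integrable_finsetSum _ fun p _ => (prod_integrable hI p).const_mul _

open PowerSeries in
/-- the integral over a cube as a coefficient -/
lemma FI_integral (hI : ∀ n, IntegrableOn (fl n) s) {n : ℕ} (m : ℕ) (c : Fin n → ℂ) :
    ∫ t in Set.univ.pi (fun _ : Fin n => s), FI m c t = (m.factorial : ℂ) *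
      coeff m (∏ j, rescale (c j) (PowerSeries.mk fun i => (∫ t in s, fl i t) / (i.factorial : ℂ))) := by
  have h : FI m c = fun t => ∑ p ∈ Finset.piAntidiag Finset.univ m,
      ((Nat.multinomial Finset.univ p : ℂ) * ∏ j, c j ^ p j) * ∏ j, fl (p j) (t j) := funext (FI_eq m c)
  rw [h, integral_finsetSum _ fun p _ => (prod_integrable hI p).const_mul _, coeff_prod, Finset.mul_sum]
  refine Finset.sum_nbij' (fun p => Finsupp.equivFunOnFinite.symm p) (fun p => (p : Fin n → ℕ)) ?_ ?_ ?_ ?_ ?_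
  · intro p hp
    rw [Finset.mem_piAntidiag] at hp
    rw [Finset.mem_finsuppAntidiag]
    exact ⟨hp.1, Finset.subset_univ _⟩
  · intro p hp
    rw [Finset.mem_finsuppAntidiag] at hp
    rw [Finset.mem_piAntidiag]
    exact ⟨hp.1, fun _ _ => Finset.mem_univ _⟩
  · intro p _
    rfl
  · intro p _
    ext j
    rfl
  · intro p hp
    rw [Finset.mem_piAntidiag] at hp
    rw [integral_const_mul, prod_integral]
    have h1 : (m.factorial : ℂ) = (∏ j, ((p j).factorial : ℂ)) * (Nat.multinomial Finset.univ p : ℂ) := by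
      have := Nat.multinomial_spec (Finset.univ : Finset (Fin n)) p
      rw [hp.1] at this
      exact_mod_cast this.symm
    have h2 : ∀ j : Fin n, ((p j).factorial : ℂ) ≠ 0 := fun j => by exact_mod_cast (p j).factorial_ne_zero
    have h3 : ∏ j, coeff ((Finsupp.equivFunOnFinite.symm p : Fin n →₀ ℕ) j) (rescale (c j)
        (PowerSeries.mk fun i => (∫ t in s, fl i t) / (i.factorial : ℂ))) =
        (∏ j, c j ^ p j) * ((∏ j, ∫ t in s, fl (p j) t) / ∏ j, ((p j).factorial : ℂ)) := by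
      rw [← Finset.prod_div_distrib, ← Finset.prod_mul_distrib]
      refine Finset.prod_congr rfl fun j _ => ?_
      rw [coeff_rescale, coeff_mk]
      rfl
    rw [h3, h1]
    have h4 : ∏ j, ((p j).factorial : ℂ) ≠ 0 := Finset.prod_ne_zero_iff.2 fun j _ => h2 j
    field_simp

end Pool.Agent.R352.Q
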