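import Pool.Agent.R352.E.Cnt

/-!
# Products of rescaled power series and logarithmic derivatives
-/

set_option autoImplicit false

open PowerSeries

namespace Pool.Agent.R352.Q

section

variable {K : Type} [Field K]

lemma sum_pow_root {k : ℕ} {ω : K} (hω : IsPrimitiveRoot ω k) (m : ℕ) :
    ∑ j : Fin k, (ω ^ (j : ℕ)) ^ m = if k ∣ m then (k : K) else 0 := by
  split_ifs with h
  · obtain ⟨c, rfl⟩ := h
    have h1 : ∀ j : Fin k, (ω ^ (j : ℕ)) ^ (k * c) = 1 := by
      intro j
      rw [← pow_mul, mul_comm, mul_assoc, pow_mul, hω.pow_eq_one, one_pow]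
    simp [h1]
  · have h1 : ω ^ m ≠ 1 := fun h2 => h (hω.dvd_of_pow_eq_one m h2)
    have h2 : ∀ j : Fin k, (ω ^ (j : ℕ)) ^ m = (ω ^ m) ^ (j : ℕ) := by
      intro j
      rw [← pow_mul, ← pow_mul, mul_comm]
    simp only [h2]
    rw [Fin.sum_univ_eq_sum_range (fun j => (ω ^ m) ^ j) k, geom_sum_eq h1, ← pow_mul, mul_comm, pow_mul, hω.pow_eq_one,
      one_pow, sub_self, zero_div]

lemma deriv_prod {ι : Type} (s : Finset ι) (G M : ι → K⟦X⟧) (h : ∀ j ∈ s, derivative K (G j) = G j * M j) :
    derivative K (∏ j ∈ s, G j) = (∏ j ∈ s, G j) * ∑ j ∈ s, M j := by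
  classical
  induction s using Finset.induction_on with
  | empty => simp
  | insert a s ha ih =>
    rw [Finset.prod_insert ha, Finset.sum_insert ha, Derivation.leibniz, ih (fun j hj => h j (Finset.mem_insert_of_mem hj)),
      h a (Finset.mem_insert_self _ _)]
    simp only [smul_eq_mul]
    ring

lemma deriv_rescale (c : K) (F : K⟦X⟧) : derivative K (rescale c F) = C c * rescale c (derivative K F) := by
  ext n
  rw [coeff_derivative, coeff_rescale, coeff_C_mul, coeff_rescale, coeff_derivative, pow_succ]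
  ring

/-- the logarithmic derivative of the product of rescalings -/
lemma deriv_prod_rescale {n : ℕ} (c : Fin n → K) {F L : K⟦X⟧} (hF : derivative K F = F * L) :
    derivative K (∏ j, rescale (c j) F) = (∏ j, rescale (c j) F) *
      PowerSeries.mk fun l => (∑ j, c j ^ (l + 1)) * coeff l L := by
  rw [deriv_prod Finset.univ _ (fun j => C (c j) * rescale (c j) L)]
  · congr 1
    ext l
    rw [map_sum, coeff_mk, Finset.sum_mul]
    refine Finset.sum_congr rfl fun j _ => ?_
    rw [coeff_C_mul, coeff_rescale, pow_succ]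
    ring
  · intro j _
    rw [deriv_rescale, hF, map_mul]
    ring

lemma constCoeff_prod_rescale {n : ℕ} (c : Fin n → K) (F : K⟦X⟧) :
    coeff 0 (∏ j, rescale (c j) F) = constantCoeff F ^ n := by
  rw [PowerSeries.coeff_zero_eq_constantCoeff_apply, map_prod]
  have h1 : ∀ j : Fin n, constantCoeff (rescale (c j) F) = constantCoeff F := by
    intro j
    rw [← PowerSeries.coeff_zero_eq_constantCoeff_apply, coeff_rescale, pow_zero, one_mul,
      PowerSeries.coeff_zero_eq_constantCoeff_apply]
  simp [h1]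

/-- roots of unity -/
lemma coeff_prod_root [CharZero K] {k : ℕ} (hk : 0 < k) {ω : K} (hω : IsPrimitiveRoot ω k) {F L : K⟦X⟧}
    (hF : derivative K F = F * L) :
    coeff k (∏ j : Fin k, rescale (ω ^ (j : ℕ)) F) = constantCoeff F ^ k * coeff (k - 1) L := by
  have h1 := congrArg (coeff (k - 1)) (deriv_prod_rescale (fun j : Fin k => ω ^ (j : ℕ)) hF)
  rw [coeff_derivative, coeff_mul, Finset.sum_eq_single (0, k - 1)] at h1
  · rw [constCoeff_prod_rescale, coeff_mk, Nat.sub_add_cancel hk, sum_pow_root hω, if_pos dvd_rfl] at h1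
    have h2 : ((k - 1 : ℕ) : K) + 1 = k := by
      rw [Nat.cast_sub hk]; simp
    rw [h2] at h1
    have h3 : (k : K) ≠ 0 := by exact_mod_cast hk.ne'
    have h4 : coeff k (∏ j : Fin k, rescale (ω ^ (j : ℕ)) F) * (k : K) =
        (constantCoeff F ^ k * coeff (k - 1) L) * k := by rw [h1]; ring
    exact mul_right_cancel₀ h3 h4
  · intro p hp hne
    rw [Finset.HasAntidiagonal.mem_antidiagonal] at hp
    rw [coeff_mk, sum_pow_root hω, if_neg, zero_mul, mul_zero]
    intro hd
    have h3 := Nat.le_of_dvd (by omega) hd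
    apply hne
    have h4 : p.2 = k - 1 := by omega
    have h5 : p.1 = 0 := by omega
    exact Prod.ext h5 h4
  · intro h
    exact absurd (by rw [Finset.HasAntidiagonal.mem_antidiagonal]; simp) h

/-- the real form for `k = 3` -/
lemma coeff_prod_three [CharZero K] {F L : K⟦X⟧} (hF : derivative K F = F * L) :
    coeff 3 (∏ j : Fin 3, rescale ((![1, 1, -2] : Fin 3 → K) j) F) = -2 * (constantCoeff F ^ 3 * coeff 2 L) := by
  set c : Fin 3 → K := ![1, 1, -2] with hc
  set H := ∏ j : Fin 3, rescale (c j) F with hH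
  have h1 := deriv_prod_rescale c hF
  have p1 : ∑ j, c j ^ (0 + 1) = 0 := by simp [hc, Fin.sum_univ_succ]; norm_num
  have p2 : ∑ j, c j ^ (1 + 1) = 6 := by simp [hc, Fin.sum_univ_succ]; norm_num
  have p3 : ∑ j, c j ^ (2 + 1) = -6 := by simp [hc, Fin.sum_univ_succ]; norm_num
  have e0 := congrArg (coeff 0) h1
  have e2 := congrArg (coeff 2) h1
  rw [coeff_derivative, coeff_mul, Finset.Nat.sum_antidiagonal_eq_sum_range_succ_mk] at e0 e2
  simp only [Finset.sum_range_succ, Finset.sum_range_zero, coeff_mk, Nat.sub_zero, zero_add] at e0 e2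
  rw [← hH] at e0 e2
  have q0 : coeff 0 H = constantCoeff F ^ 3 := constCoeff_prod_rescale c F
  norm_num at e0 e2
  simp only [p2, p3] at e0 e2
  have p1' : ∑ x, c x = 0 := by simpa using p1
  rw [PowerSeries.coeff_zero_eq_constantCoeff_apply] at q0
  rw [p1', zero_mul, mul_zero] at e0
  rw [p1', q0, e0] at e2
  have h3 : (3 : K) ≠ 0 := by norm_num
  have h4 : coeff 3 H * 3 = (-2 * (constantCoeff F ^ 3 * coeff 2 L)) * 3 := by linear_combination e2
  exact mul_right_cancel₀ h3 h4

end

end Pool.Agent.R352.Q
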