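import Pool.Agent.R352.Q.Ind

/-!
# The real form of the third tail
-/

set_option autoImplicit false

open MeasureTheory Set

namespace Pool.Agent.R352.Q

open Pool.Agent.R352.E

lemma FI_three (t : Fin 3 → ℝ) (ht : ∀ j, 0 < t j) : FI 3 (![1, 1, -2] : Fin 3 → ℂ) t =
    ((Real.log (t 0 * t 1 / t 2 ^ 2) ^ 3 * Real.exp (-(t 0 + t 1 + t 2)) : ℝ) : ℂ) := by
  have h0 := (ht 0).ne'
  have h1 := (ht 1).ne'
  have h2 := (ht 2).ne'
  rw [Real.log_div (mul_ne_zero h0 h1) (pow_ne_zero _ h2), Real.log_mul h0 h1, Real.log_pow, FI]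
  simp only [Fin.sum_univ_succ, Fin.sum_univ_zero]
  simp
  ring_nf

lemma three_rest {x : ℝ} (hx : 0 < x) :
    ∫ t in cube 3 (Ioi 0) \ cube 3 (Ioo 0 x), Real.log (t 0 * t 1 / t 2 ^ 2) ^ 3 * Real.exp (-(t 0 + t 1 + t 2)) =
      12 * Rk 3 x := by
  have h1 : ((∫ t in cube 3 (Ioi 0) \ cube 3 (Ioo 0 x), Real.log (t 0 * t 1 / t 2 ^ 2) ^ 3 *
      Real.exp (-(t 0 + t 1 + t 2)) : ℝ) : ℂ) = ((12 * Rk 3 x : ℝ) : ℂ) := by
    rw [show ((∫ t in cube 3 (Ioi 0) \ cube 3 (Ioo 0 x), Real.log (t 0 * t 1 / t 2 ^ 2) ^ 3 *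
      Real.exp (-(t 0 + t 1 + t 2)) : ℝ) : ℂ) = ∫ t in cube 3 (Ioi 0) \ cube 3 (Ioo 0 x), ((Real.log (t 0 * t 1 / t 2 ^ 2) ^ 3 *
        Real.exp (-(t 0 + t 1 + t 2)) : ℝ) : ℂ) from integral_ofReal.symm]
    have h2 : ∫ t in cube 3 (Ioi 0) \ cube 3 (Ioo 0 x), ((Real.log (t 0 * t 1 / t 2 ^ 2) ^ 3 *
        Real.exp (-(t 0 + t 1 + t 2)) : ℝ) : ℂ) =
        ∫ t in cube 3 (Ioi 0) \ cube 3 (Ioo 0 x), FI 3 (![1, 1, -2] : Fin 3 → ℂ) t := by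
      refine setIntegral_congr_fun ((meas_cube 3 measurableSet_Ioi).diff (meas_cube 3 measurableSet_Ioo)) fun t ht => ?_
      exact (FI_three t fun j => ht.1 j (mem_univ j)).symm
    have h5 : ∫ t in cube 3 (Ioi 0) \ cube 3 (Ioo 0 x), FI 3 (![1, 1, -2] : Fin 3 → ℂ) t =
        (∫ t in cube 3 (Ioi 0), FI 3 (![1, 1, -2] : Fin 3 → ℂ) t) -
          ∫ t in cube 3 (Ioo 0 x), FI 3 (![1, 1, -2] : Fin 3 → ℂ) t :=
      setIntegral_sdiff (meas_cube 3 measurableSet_Ioo) (FI_integrable (fl_int subset_rfl) _ _)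
        (cube_mono 3 Ioo_subset_Ioi_self)
    rw [h2, h5, cube, cube, cube_three subset_rfl deriv_Fs_Ioi,
      cube_three Ioo_subset_Ioi_self (deriv_Fs_Ioo hx), const_Fs_Ioi, const_Fs_Ioo hx]
    have h3 : PowerSeries.coeff 2 PC = (-1) ^ 3 * zt 3 := coeff_PC (k := 3) (by norm_num)
    have h4 : PowerSeries.coeff 2 (PowerSeries.C (Real.log x) + Ls x) = PowerSeries.coeff 2 (Ls x) :=
      coeff_C_add (k := 3) (by norm_num) (Real.log x) (Ls x)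
    rw [← Complex.ofReal_sub, h3, h4, Rk, Zk]
    congr 1
    norm_num
    ring
  exact_mod_cast h1

end Pool.Agent.R352.Q
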