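import Pool.Agent.R352.Q.Int

/-!
# Incomplete zeta values
-/

set_option autoImplicit false

open MeasureTheory Set

namespace Pool.Agent.R352.Q

open Pool.Agent.R352.E

open PowerSeries in
/-- the series of moments -/
noncomputable def Fs (s : Set ℝ) : ℝ⟦X⟧ := PowerSeries.mk fun n => (∫ t in s, fr n t) / n.factorial

/-- the root of unity -/
noncomputable def om (k : ℕ) : ℂ := Complex.exp (2 * Real.pi * Complex.I / k)

lemma int_fl (n : ℕ) (s : Set ℝ) : ∫ t in s, fl n t = ((∫ t in s, fr n t : ℝ) : ℂ) := integral_ofReal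

lemma fl_int {s : Set ℝ} (hs : s ⊆ Ioi 0) (n : ℕ) : IntegrableOn (fl n) s :=
  ((fr_integrable n).mono_set hs).ofReal

section

open PowerSeries

lemma map_Fs (s : Set ℝ) : (PowerSeries.mk fun i => (∫ t in s, fl i t) / (i.factorial : ℂ)) =
    PowerSeries.map (algebraMap ℝ ℂ) (Fs s) := by
  ext n
  rw [coeff_mk, coeff_map, Fs, coeff_mk, int_fl]
  simp

lemma deriv_map' (F : ℝ⟦X⟧) : derivative ℂ (PowerSeries.map (algebraMap ℝ ℂ) F) =
    PowerSeries.map (algebraMap ℝ ℂ) (derivative ℝ F) := by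
  ext n
  rw [coeff_derivative, coeff_map, coeff_map, coeff_derivative]
  simp

/-- the integral over a cube, roots of unity -/
lemma cube_root {k : ℕ} (hk : 0 < k) {s : Set ℝ} (hs : s ⊆ Ioi 0) {L : ℝ⟦X⟧}
    (hL : derivative ℝ (Fs s) = Fs s * L) :
    ∫ t in Set.univ.pi (fun _ : Fin k => s), FI k (fun j => om k ^ (j : ℕ)) t =
      ((k.factorial * (constantCoeff (Fs s) ^ k * coeff (k - 1) L) : ℝ) : ℂ) := by
  rw [FI_integral (fl_int hs), map_Fs]
  have h1 : derivative ℂ (PowerSeries.map (algebraMap ℝ ℂ) (Fs s)) =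
      PowerSeries.map (algebraMap ℝ ℂ) (Fs s) * PowerSeries.map (algebraMap ℝ ℂ) L := by
    rw [deriv_map', hL, map_mul]
  have h2 : IsPrimitiveRoot (om k) k := Complex.isPrimitiveRoot_exp k hk.ne'
  rw [coeff_prod_root hk h2 h1, coeff_map]
  have h3 : constantCoeff (PowerSeries.map (algebraMap ℝ ℂ) (Fs s)) = ((constantCoeff (Fs s) : ℝ) : ℂ) := by
    rw [← coeff_zero_eq_constantCoeff_apply, coeff_map, coeff_zero_eq_constantCoeff_apply]
    rfl
  rw [h3]
  push_cast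
  rfl

/-- the integral over a cube, the real form for `k = 3` -/
lemma cube_three {s : Set ℝ} (hs : s ⊆ Ioi 0) {L : ℝ⟦X⟧} (hL : derivative ℝ (Fs s) = Fs s * L) :
    ∫ t in Set.univ.pi (fun _ : Fin 3 => s), FI 3 (![1, 1, -2] : Fin 3 → ℂ) t =
      ((-12 * (constantCoeff (Fs s) ^ 3 * coeff 2 L) : ℝ) : ℂ) := by
  rw [FI_integral (fl_int hs), map_Fs]
  have h1 : derivative ℂ (PowerSeries.map (algebraMap ℝ ℂ) (Fs s)) =
      PowerSeries.map (algebraMap ℝ ℂ) (Fs s) * PowerSeries.map (algebraMap ℝ ℂ) L := by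
    rw [deriv_map', hL, map_mul]
  rw [coeff_prod_three h1, coeff_map]
  have h3 : constantCoeff (PowerSeries.map (algebraMap ℝ ℂ) (Fs s)) = ((constantCoeff (Fs s) : ℝ) : ℂ) := by
    rw [← coeff_zero_eq_constantCoeff_apply, coeff_map, coeff_zero_eq_constantCoeff_apply]
    rfl
  rw [h3]
  push_cast
  have h4 : ((Nat.factorial 3 : ℕ) : ℂ) = 6 := by norm_num [Nat.factorial]
  rw [h4]
  show _ = -12 * (((constantCoeff (Fs s) : ℝ) : ℂ) ^ 3 * (((coeff 2) L : ℝ) : ℂ))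
  have h5 : (algebraMap ℝ ℂ) ((coeff 2) L) = (((coeff 2) L : ℝ) : ℂ) := rfl
  rw [h5]
  ring

lemma Fs_Ioi : Fs (Ioi 0) = PA := by
  ext n
  rw [Fs, coeff_mk, PA, coeff_mk, mo]

lemma deriv_Fs_Ioi : derivative ℝ (Fs (Ioi 0)) = Fs (Ioi 0) * PC := by rw [Fs_Ioi, dPA]

lemma const_Fs_Ioi : constantCoeff (Fs (Ioi 0)) = 1 := by
  rw [← coeff_zero_eq_constantCoeff_apply, Fs, coeff_mk]
  have := mo0
  rw [mo] at this
  rw [this]
  simp

lemma coeff_PC {k : ℕ} (hk : 2 ≤ k) : coeff (k - 1) PC = (-1) ^ k * zt k := by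
  obtain ⟨i, rfl⟩ : ∃ i, k = i + 2 := ⟨k - 2, by omega⟩
  rw [PC, coeff_mk]
  have h1 : i + 2 - 1 = i + 1 := by omega
  rw [h1, cc]
  have : ((i + 1).factorial : ℝ) ≠ 0 := by positivity
  field_simp
  ring

/-- the series of the functions `E_l` -/
noncomputable def As (x : ℝ) : ℝ⟦X⟧ := PowerSeries.mk fun l => (-1) ^ l * EE l x

/-- its logarithmic derivative -/
noncomputable def Ls (x : ℝ) : ℝ⟦X⟧ := derivative ℝ (As x) * (As x)⁻¹

lemma const_As (x : ℝ) : constantCoeff (As x) = 1 - Real.exp (-x) := by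
  rw [← coeff_zero_eq_constantCoeff_apply, As, coeff_mk, EE_zero_left]
  simp

lemma const_pos {x : ℝ} (hx : 0 < x) : 0 < 1 - Real.exp (-x) := by
  have : Real.exp (-x) < 1 := by rw [Real.exp_lt_one_iff]; linarith
  linarith

lemma deriv_As {x : ℝ} (hx : 0 < x) : derivative ℝ (As x) = As x * Ls x := by
  have h1 : constantCoeff (As x) ≠ 0 := by rw [const_As]; exact (const_pos hx).ne'
  rw [Ls]
  calc derivative ℝ (As x) = derivative ℝ (As x) * (As x * (As x)⁻¹) := by rw [PowerSeries.mul_inv_cancel _ h1, mul_one]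
    _ = _ := by ring

lemma PE_mul (a b : ℝ) : PE a * PE b = PE (a + b) := by
  have h : ∀ a : ℝ, PE a = rescale a (PowerSeries.exp ℝ) := by
    intro a
    ext n
    rw [PE, coeff_mk, coeff_rescale, coeff_exp]
    simp [div_eq_mul_inv]
  rw [h, h, h]
  exact PowerSeries.exp_mul_exp_eq_exp_add a b

lemma PE_zero : PE 0 = 1 := by
  ext n
  rw [PE, coeff_mk, coeff_one]
  split_ifs with h
  · rw [h]; simp
  · rw [zero_pow h]; simp

lemma int_Ioo (n : ℕ) {x : ℝ} (hx : 0 < x) : ∫ t in Ioo 0 x, fr n t = Mi n x := by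
  rw [Mi, intervalIntegral.integral_of_le hx.le, integral_Ioc_eq_integral_Ioo]

lemma PE_Fs {x : ℝ} (hx : 0 < x) : PE (-Real.log x) * Fs (Ioo 0 x) = As x := by
  ext l
  rw [coeff_mul, As, coeff_mk, EE_eq_QQ l hx, QQ]
  simp only [PE, Fs, coeff_mk, int_Ioo _ hx]
  rw [Finset.Nat.sum_antidiagonal_eq_sum_range_succ (fun i j => (-Real.log x) ^ i / i.factorial * (Mi j x / j.factorial)),
    ← Finset.sum_range_reflect, ← mul_assoc, mul_div_assoc', ← mul_pow, Finset.mul_sum]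
  refine Finset.sum_congr rfl fun i hi => ?_
  have hi' : i ≤ l := by have := Finset.mem_range.1 hi; omega
  have e1 : l + 1 - 1 - i = l - i := by omega
  have e2 : l - (l - i) = i := by omega
  rw [e1, e2, neg_pow]
  have h3 : (l.choose i : ℝ) * i.factorial * (l - i).factorial = l.factorial := by
    exact_mod_cast Nat.choose_mul_factorial_mul_factorial hi'
  have h4 : (l.factorial : ℝ) ≠ 0 := by positivity
  have h5 : (i.factorial : ℝ) ≠ 0 := by positivity
  have h6 : ((l - i).factorial : ℝ) ≠ 0 := by positivity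
  have h7 : ((-1 : ℝ) * -1) ^ l = 1 := by norm_num
  rw [h7]
  field_simp
  linear_combination (-(Real.log x ^ (l - i) * Mi i x)) * h3

lemma Fs_Ioo {x : ℝ} (hx : 0 < x) : Fs (Ioo 0 x) = PE (Real.log x) * As x := by
  rw [← PE_Fs hx, ← mul_assoc, PE_mul, add_neg_cancel, PE_zero, one_mul]

lemma deriv_Fs_Ioo {x : ℝ} (hx : 0 < x) : derivative ℝ (Fs (Ioo 0 x)) =
    Fs (Ioo 0 x) * (C (Real.log x) + Ls x) := by
  rw [Fs_Ioo hx, Derivation.leibniz, dPE, deriv_As hx]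
  simp only [smul_eq_mul, PowerSeries.smul_eq_C_mul]
  ring

lemma const_Fs_Ioo {x : ℝ} (hx : 0 < x) : constantCoeff (Fs (Ioo 0 x)) = 1 - Real.exp (-x) := by
  rw [Fs_Ioo hx, map_mul, const_As]
  have : constantCoeff (PE (Real.log x)) = 1 := by
    rw [← coeff_zero_eq_constantCoeff_apply, PE, coeff_mk]; simp
  rw [this, one_mul]

lemma coeff_C_add {k : ℕ} (hk : 2 ≤ k) (a : ℝ) (L : ℝ⟦X⟧) : coeff (k - 1) (C a + L) = coeff (k - 1) L := by
  rw [map_add, coeff_C, if_neg (by omega), zero_add]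

end

open PowerSeries in
/-- the incomplete zeta values -/
noncomputable def Zk (k : ℕ) (x : ℝ) : ℝ := (-1) ^ k * ((1 - Real.exp (-x)) ^ k * coeff (k - 1) (Ls x))

/-- the normalized integral -/
noncomputable def NI (k : ℕ) (D : Set (Fin k → ℝ)) : ℂ :=
  (-1) ^ k / k.factorial * ∫ t in D, FI k (fun j => om k ^ (j : ℕ)) t

/-- cubes -/
def cube (k : ℕ) (s : Set ℝ) : Set (Fin k → ℝ) := Set.univ.pi fun _ => s

lemma NI_full {k : ℕ} (hk : 2 ≤ k) : NI k (cube k (Ioi 0)) = (zt k : ℂ) := by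
  rw [NI, cube, cube_root (by omega) subset_rfl deriv_Fs_Ioi, const_Fs_Ioi, coeff_PC hk]
  have h1 : (k.factorial : ℂ) ≠ 0 := by exact_mod_cast k.factorial_ne_zero
  have h2 : ((-1 : ℂ) ^ k) * (-1) ^ k = 1 := by rw [← mul_pow]; norm_num
  push_cast
  field_simp
  rw [one_pow, mul_one, sq, h2, one_mul]

lemma NI_box {k : ℕ} (hk : 2 ≤ k) {x : ℝ} (hx : 0 < x) : NI k (cube k (Ioo 0 x)) = (Zk k x : ℂ) := by
  rw [NI, cube, cube_root (by omega) Ioo_subset_Ioi_self (deriv_Fs_Ioo hx), const_Fs_Ioo hx, coeff_C_add hk, Zk]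
  have h1 : (k.factorial : ℂ) ≠ 0 := by exact_mod_cast k.factorial_ne_zero
  push_cast
  field_simp

lemma meas_cube (k : ℕ) {s : Set ℝ} (hs : MeasurableSet s) : MeasurableSet (cube k s) :=
  MeasurableSet.univ_pi fun _ => hs

lemma cube_mono (k : ℕ) {s u : Set ℝ} (h : s ⊆ u) : cube k s ⊆ cube k u := Set.pi_mono fun _ _ => h

lemma NI_diff {k : ℕ} (x : ℝ) :
    NI k (cube k (Ioi 0) \ cube k (Ioo 0 x)) = NI k (cube k (Ioi 0)) - NI k (cube k (Ioo 0 x)) := by
  rw [NI, NI, NI, ← mul_sub]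
  congr 1
  exact setIntegral_sdiff (meas_cube k measurableSet_Ioo) (FI_integrable (fl_int subset_rfl) _ _)
    (cube_mono k Ioo_subset_Ioi_self)

end Pool.Agent.R352.Q
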